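import Mathlib
import Pool.Agent.K4H7.DZ.Prod

/-!
# Quotients of Dedekind zeta functions at all points: `PGL₂(F)`, `GL₂(F)`, `PSL₂(F)` and subgroups of order two

`Pool.Agent.H541R3.ART.ArtinData G s₀` is a family of functions with the formal properties of the
Artin L-functions of a Galois extension `E/K` with group `G` near a point `s₀ ≠ 1`: functions
`L χ` for the irreducible characters `χ` of `G`, meromorphic and not identically zero near `s₀`
(Brauer), and `Lin H ψ` for the linear characters `ψ` of the subgroups `H`, without pole at `s₀`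
(Artin reciprocity and Hecke), such that `Lin H ψ` is the product of the `L χ ^ ⟨χ|_H, ψ⟩`
(induction). In particular `Lin H 1` stands for the Dedekind zeta function of the fixed field of
`H`.

`Matrix.ProjGenLinGroup (Fin 2) F` is `PGL₂(F)`, `Matrix.ProjectiveSpecialLinearGroup (Fin 2) F`
is `PSL₂(F)`.
-/

set_option autoImplicit false

open Pool.Agent.H541R3.ART

/-- Let `G` be the Galois group of `E/K`, let `N ≤ M` be subgroups of `G`, `N` normal in `M`, and
let `M / N` be the Galois group of `E^N / E^M`. Suppose that there is a surjection `π` with solvable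
kernel from `M / N` onto a product of finitely many groups `P j`, each of which is

* `PGL₂(F)` for a finite field `F` of odd characteristic, or
* `PSL₂(F)` for a finite field `F` in which `3` is not a square
  (equivalently: with `5` or `7` modulo `12` elements)

(for example: `M / N` is `PGL₂(F)` or `GL₂(F)`, `F` a finite field of odd characteristic, or
`M / N = GL₂(ℤ/m)`). Let `V` be a subgroup with `N ≤ V ≤ M` whose image in every `P j` has order at
most two (for example: `M / N = PGL₂(F)`, `E^V` is the fixed field of an involution; or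
`M / N = GL₂(ℤ/m)` and `V / N` is generated by an element of order two).

Then for all points `s₀`, all functions with the formal properties of the Artin L-functions of
`E/K` near `s₀`, and all linear characters `ρ` of `M`, the order at `s₀` of the L-function of `ρ`
over `E^M` is at most the order of the L-function of `ρ|_V` over `E^V`; for `ρ = 1`: the quotient
`ζ_{E^V} / ζ_{E^M}` has no pole at `s₀`. The zeros may have any order. -/
theorem Pool.Agent.Results.MP_9fc8a5_nt.PGL2Involutions.result
    (G : Type) [Group G] [Finite G] (M N : Subgroup G) [(N.subgroupOf M).Normal]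
    (r : ℕ) (F : Fin r → Type) [∀ j, Field (F j)] [∀ j, Finite (F j)]
    (P : Fin r → Type) [∀ j, Group (P j)]
    (hP : ∀ j, ((2 : F j) ≠ 0 ∧ Nonempty (P j ≃* Matrix.ProjGenLinGroup (Fin 2) (F j))) ∨
      (¬ IsSquare (3 : F j) ∧ Nonempty (P j ≃* Matrix.ProjectiveSpecialLinearGroup (Fin 2) (F j))))
    (π : (M ⧸ N.subgroupOf M) →* ∀ j, P j) (hπ : Function.Surjective π)
    (hs : Group.IsSolvable π.ker) (V : Subgroup G) (hNV : N ≤ V) (hVM : V ≤ M)
    (hV : ∀ j, Nat.card ((V.subgroupOf M).map
      ((Pi.evalMonoidHom P j).comp (π.comp (QuotientGroup.mk' (N.subgroupOf M))))) ≤ 2)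
    (s₀ : ℂ) (A : ArtinData G s₀) (ρ : M →* ℂˣ) :
    meromorphicOrderAt (A.Lin M ρ) s₀
      ≤ meromorphicOrderAt (A.Lin V (ρ.comp (Subgroup.inclusion hVM))) s₀ :=
  Pool.Agent.K4H7.DZ.main_prod M N r F P hP π hπ hs V hNV hVM hV s₀ A ρ
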