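import Pool.Agent.K4H11.PD.Dual

/-!
# Quotients of Dedekind zeta functions for extensions of prime degree: what induction theorems prove

Let `E/K` be a Galois extension of number fields with group `G`, `U ≤ G`, `L = E^U`. The character of
`ζ_L / ζ_K` is `π - 1`, where `π = Ind_U^G 1`.

* `FromHecke U`: a positive multiple of `π - 1` is a sum of characters induced from linear characters of
  subgroups. Then a power of `ζ_L / ζ_K` is a product of Hecke L-functions which are entire (the
  trivial characters do not occur, since `π - 1` does not contain the trivial character), and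
  `ζ_L / ζ_K` is entire. Uchida and van der Waall prove this for solvable `G`, Aramata and Brauer for
  `U = 1`.
* `FromArtin U`: a positive multiple of `π - 1` is a sum of characters which are linear characters of `G` or
  induced from irreducible characters of proper subgroups. Then Artin's conjecture for the extensions
  `E/F` with `F ≠ K` (`F` an intermediate field) implies that `ζ_L / ζ_K` is entire.
* `Formal U`: let `θ` be a virtual character of `G`, such as the sum of `ord_s L(s, χ) χ` over the irreducible
  characters `χ` of `G` for a given point `s`, such that the orders `⟨θ|_H, χ⟩` of the Artin L-functions of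
  the irreducible characters `χ` of all proper subgroups `H` and of the linear characters of `G` are not
  negative. Then the order `⟨θ, 1⟩` of `ζ_K` is at most the order `⟨θ|_U, 1⟩` of `ζ_L`.

Theorem: if `U` has prime index, the three properties are equivalent to the solvability of the group
`G / core(U)`, the Galois group of the Galois closure of `L/K`. So for the extensions of prime
degree with nonsolvable closure the conjecture of Dedekind does not follow from the formal properties
of Artin L-functions and Artin's conjecture for all extensions `E/F` with `F ≠ K`, for any Galois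
extension `E/K` containing `L`.

Outline of the proof. If `G / core(U)` is not solvable, then `G` is doubly transitive on the cosets of `U`
(Burnside's theorem, proved here with polynomials, after P. Müller), so `ψ = π - 1` is irreducible.
Suppose that a character induced from an irreducible character `χ` of a proper subgroup `H` is a
multiple `k ψ`, `k ≥ 1`. Since `ψ` does not vanish on the elements which act as `p`-cycles, `H`
contains such an element `τ`. The restriction of `ψ` to `⟨τ⟩` is multiplicity free, so `k = 1`,
`|G : H| χ(1) = p - 1`, and `τ` acts trivially on the cosets of `H`, i.e. lies in the normal core of `H`.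
If `H` is doubly transitive, then `ψ` is irreducible on `H`, `χ(1) = p - 1` and `H = G`, a
contradiction. Otherwise `H` is affine (Burnside again), the conjugates of `τ` are translations, and
`G` is affine. So no such character exists, and `θ = (p - 1) ρ - ((p - 1)² + 1) ψ`, `ρ` the regular
character, shows that `Formal U` fails (`ζ_L / ζ_K` gets a simple pole). If `G / core(U)` is solvable,
a normal commutative subgroup acts as the group of the translations, and a multiple of `π - 1` is
the sum of the characters induced from its nontrivial linear characters.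
-/

set_option autoImplicit false

open scoped BigOperators

noncomputable section

namespace Pool.Agent.Results.MP_9fc8a5_nt.PrimeDegreeExact

open Classical in
/-- The class function of `G` induced from the function `f` on the subgroup `H`:
`g ↦ |H|⁻¹ ∑ f(y⁻¹ g y)`, the sum over all `y` in `G` with `y⁻¹ g y ∈ H`. -/
def induced {G : Type} [Group G] [Fintype G] (H : Subgroup G) (f : H → ℂ) (g : G) : ℂ :=
  (Nat.card H : ℂ)⁻¹ * ∑ y : G, if h : y⁻¹ * g * y ∈ H then f ⟨y⁻¹ * g * y, h⟩ else 0

open Classical in
/-- The multiplicity `⟨θ|_H, χ⟩ = |H|⁻¹ ∑_{h ∈ H} θ(h) χ(h⁻¹)`. -/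
def mult {G : Type} [Group G] [Fintype G] (H : Subgroup G) (θ : G → ℂ) (χ : H → ℂ) : ℂ :=
  (Nat.card H : ℂ)⁻¹ * ∑ h : H, θ h * χ h⁻¹

/-- A positive multiple of `Ind_U^G 1 - 1` is a sum of characters induced from linear characters of
subgroups. -/
def FromHecke {G : Type} [Group G] [Fintype G] (U : Subgroup G) : Prop :=
  ∃ (m n : ℕ) (H : Fin n → Subgroup G) (mu : ∀ i, H i →* ℂˣ), 0 < m ∧
    ∀ g, (m : ℂ) * (induced U (fun _ => 1) g - 1)
      = ∑ i, induced (H i) (fun h => ((mu i h : ℂˣ) : ℂ)) g

/-- A positive multiple of `Ind_U^G 1 - 1` is a sum of characters each of which is a linear character of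
`G` or induced from an irreducible character of a proper subgroup. -/
def FromArtin {G : Type} [Group G] [Fintype G] (U : Subgroup G) : Prop :=
  ∃ (m n : ℕ) (H : Fin n → Subgroup G) (d : Fin n → ℕ)
    (ρ : ∀ i, Representation ℂ (H i) (Fin (d i) → ℂ)), 0 < m ∧
    (∀ i, (ρ i).IsIrreducible ∧ (H i ≠ ⊤ ∨ d i = 1)) ∧
    ∀ g, (m : ℂ) * (induced U (fun _ => 1) g - 1) = ∑ i, induced (H i) (ρ i).character g

/-- For every virtual character `θ` of `G` (difference of two characters) such that `⟨θ|_H, χ⟩ ≥ 0` for all
irreducible characters `χ` of proper subgroups `H` and for all linear characters `χ` of `H = G`, one has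
`⟨θ, 1⟩ ≤ ⟨θ|_U, 1⟩`. -/
def Formal {G : Type} [Group G] [Fintype G] (U : Subgroup G) : Prop :=
  ∀ θ ∈ AddSubgroup.closure {f : G → ℂ | ∃ (d : ℕ) (ρ : Representation ℂ G (Fin d → ℂ)), f = ρ.character},
    (∀ (H : Subgroup G) (d : ℕ) (ρ : Representation ℂ H (Fin d → ℂ)), ρ.IsIrreducible →
      (H ≠ ⊤ ∨ d = 1) → 0 ≤ (mult H θ ρ.character).re) →
    (mult ⊤ θ (fun _ => 1)).re ≤ (mult U θ (fun _ => 1)).re

/-- the one-dimensional matrix representation given by a linear character -/
def lin {H : Type} [Group H] (mu : H →* ℂˣ) : Representation ℂ H (Fin 1 → ℂ) where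
  toFun h := ((mu h : ℂˣ) : ℂ) • LinearMap.id
  map_one' := by simp; rfl
  map_mul' a b := by
    ext
    simp
    ring

lemma lin_char {H : Type} [Group H] (mu : H →* ℂˣ) (h : H) :
    (lin mu).character h = ((mu h : ℂˣ) : ℂ) := by
  change LinearMap.trace ℂ (Fin 1 → ℂ) (((mu h : ℂˣ) : ℂ) • LinearMap.id) = _
  rw [map_smul, LinearMap.trace_id]
  simp

/-- **Extensions of prime degree.** Let `G` be a finite group and `U` a subgroup of prime index. The
following are equivalent: (1) `G / core(U)` is solvable; (2) a positive multiple of `Ind_U^G 1 - 1` is a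
sum of characters induced from linear characters of subgroups; (3) a positive multiple of
`Ind_U^G 1 - 1` is a sum of linear characters of `G` and of characters induced from irreducible
characters of proper subgroups; (4) `⟨θ, 1⟩ ≤ ⟨θ|_U, 1⟩` for all virtual characters `θ` of `G` which have
nonnegative multiplicities against the irreducible characters of the proper subgroups and the
linear characters of `G`. -/
theorem result {G : Type} [Group G] [Fintype G] (U : Subgroup G) (hU : U.index.Prime) :
    [Group.IsSolvable (G ⧸ U.normalCore), FromHecke U, FromArtin U, Formal U].TFAE := by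
  have : Fact (U.index.Prime) := ⟨hU⟩
  tfae_have 1 → 2 := fun h => Pool.Agent.K4H11.PD.hecke_of_solvable U.index U rfl h
  tfae_have 2 → 3 := by
    rintro ⟨m, n, H, mu, hm, h⟩
    refine ⟨m, n, H, fun _ => 1, fun i => lin (mu i), hm, fun i =>
      ⟨Pool.Agent.K4H11.PD.irr_of_finrank_one _ (by simp), Or.inr rfl⟩, fun g => ?_⟩
    rw [h g]
    refine Finset.sum_congr rfl fun i _ => ?_
    have h1 : (lin (mu i)).character = fun h => ((mu i h : ℂˣ) : ℂ) := by
      funext h
      exact lin_char _ h
    rw [h1]
  tfae_have 3 → 4 := by
    rintro ⟨m, n, H, d, ρ, hm, hi, h⟩ θ hθ hpos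
    have hcl := Pool.Agent.K4H11.PD.virt_class hθ
    have e1 := Pool.Agent.K4H11.PD.mult_eq U θ hcl (fun _ => 1)
    have e2 := Pool.Agent.K4H11.PD.mult_top θ hcl
    have e3 : (m : ℂ) * (mult U θ (fun _ => 1) - mult ⊤ θ (fun _ => 1))
        = ∑ i, mult (H i) θ (ρ i).character := by
      have e4 : ∀ i, mult (H i) θ (ρ i).character
          = Pool.Agent.Helper884.IC.B (induced (H i) (ρ i).character) θ :=
        fun i => Pool.Agent.K4H11.PD.mult_eq (H i) θ hcl _
      rw [Finset.sum_congr rfl (fun i _ => e4 i), ← Pool.Agent.Helper884.IC.B_sum_left]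
      have e5 : (∑ i, induced (H i) (ρ i).character) = (m : ℂ) • (induced U (fun _ => 1) - fun _ => 1) := by
        funext g
        rw [Finset.sum_apply, ← h g]
        rfl
      rw [e5, Pool.Agent.Helper884.IC.B_smul_left, Pool.Agent.Helper884.IC.B_sub_left]
      congr 2
    have e6 := congrArg Complex.re e3
    rw [Complex.re_sum, ← Complex.ofReal_natCast, Complex.re_ofReal_mul, Complex.sub_re] at e6
    have e7 : 0 ≤ ∑ i, (mult (H i) θ (ρ i).character).re :=
      Finset.sum_nonneg fun i _ => hpos _ _ _ (hi i).1 (hi i).2
    rw [← e6] at e7
    have e8 : (0 : ℝ) < m := by exact_mod_cast hm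
    have e9 := (mul_nonneg_iff_of_pos_left e8).mp e7
    linarith
  tfae_have 4 → 1 := fun h => Pool.Agent.K4H11.PD.solvable_of_dual U.index U rfl h
  tfae_finish

end Pool.Agent.Results.MP_9fc8a5_nt.PrimeDegreeExact
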