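import Pool.Agent.K4H11.PD.Sym

/-!
# Quotients of Dedekind zeta functions: symmetric and alternating closure groups

Let `E/K` be a Galois extension of number fields with group `G`, `U ≤ G`, `L = E^U`. The character of
`ζ_L / ζ_K` is `ψ = π - 1`, where `π = Ind_U^G 1`. The group of the Galois closure of `L/K`, as a permutation
group of degree `n = [L : K]`, is the image of `G` in the symmetric group on `G ⧸ U`.

Theorem: if this image contains the alternating group, `n ≥ 5`, and it is not the alternating group
of degree `6`, then no positive multiple of `ψ` is a sum of linear characters of `G` and characters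
induced from irreducible characters of proper subgroups (`FromArtin` fails), and there is a
virtual character `θ` of `G` (explicitly `(n-1) ρ - ((n-1)² + 1) ψ`, `ρ` the regular character) all whose
multiplicities against the irreducible characters of the proper subgroups and against the
linear characters of `G` are nonnegative integers, and which has one copy less of `1` on `U` than on
`G`. So there are hypothetical orders of zeros of the Artin L-functions of `E/K` at a point, compatible
with induction, restriction and Artin's conjecture for all extensions `E/F` with `F ≠ K`, for which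
`ζ_L / ζ_K` has a simple pole. This holds for every Galois extension `E/K` containing `L`, not only for
the closure.

Outline of the proof. `G` is doubly transitive on `G ⧸ U`, so `ψ` is irreducible. Let `χ` be an irreducible
character of a proper subgroup `H` (or a linear character of `G`), `k = ⟨Ind χ, ψ⟩`. If `Ind χ ≠ k ψ` for
`k ≥ 1`, then `(Ind χ)(1) ≥ k (n-1) + 1`, and `k ≤ n - 1`, which gives `⟨θ|_H, χ⟩ ≥ 0`. Suppose
`Ind χ = k ψ`, `k ≥ 1`. Then `H` contains a conjugate of every element with a number of fixed points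
different from `1`, and the kernel of the action. So the image of `H` contains cycles of
the lengths `n, n-2, n-3` (or, in the alternating group, of the odd ones among `n, n-2, n-3, n-5` and
the square of an `n`-cycle), is transitive, then primitive, and contains a transposition or a
three-cycle; so it is the image of `G` by Jordan's theorem, and `H = G`, a contradiction.
-/

set_option autoImplicit false

open scoped BigOperators

noncomputable section

namespace Pool.Agent.Results.MP_9fc8a5_nt.SymmetricAlternating

open Classical in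
/-- The class function of `G` induced from the function `f` on the subgroup `H`:
`g ↦ |H|⁻¹ ∑ f(y⁻¹ g y)`, the sum over all `y` in `G` with `y⁻¹ g y ∈ H`. -/
def induced {G : Type} [Group G] [Fintype G] (H : Subgroup G) (f : H → ℂ) (g : G) : ℂ :=
  (Nat.card H : ℂ)⁻¹ * ∑ y : G, if h : y⁻¹ * g * y ∈ H then f ⟨y⁻¹ * g * y, h⟩ else 0

open Classical in
/-- The multiplicity `⟨θ|_H, χ⟩ = |H|⁻¹ ∑_{h ∈ H} θ(h) χ(h⁻¹)`. -/
def mult {G : Type} [Group G] [Fintype G] (H : Subgroup G) (θ : G → ℂ) (χ : H → ℂ) : ℂ :=
  (Nat.card H : ℂ)⁻¹ * ∑ h : H, θ h * χ h⁻¹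

/-- A positive multiple of `Ind_U^G 1 - 1` is a sum of characters each of which is a linear character of
`G` or induced from an irreducible character of a proper subgroup. -/
def FromArtin {G : Type} [Group G] [Fintype G] (U : Subgroup G) : Prop :=
  ∃ (m n : ℕ) (H : Fin n → Subgroup G) (d : Fin n → ℕ)
    (ρ : ∀ i, Representation ℂ (H i) (Fin (d i) → ℂ)), 0 < m ∧
    (∀ i, (ρ i).IsIrreducible ∧ (H i ≠ ⊤ ∨ d i = 1)) ∧
    ∀ g, (m : ℂ) * (induced U (fun _ => 1) g - 1) = ∑ i, induced (H i) (ρ i).character g

open Classical in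
/-- The class function `(n-1) ρ - ((n-1)² + 1) ψ`, where `n = [G : U]`, `ρ` is the character of the regular
representation and `ψ = Ind_U^G 1 - 1`. -/
def theta {G : Type} [Group G] [Fintype G] (U : Subgroup G) (g : G) : ℂ :=
  ((U.index - 1 : ℕ) : ℂ) * (if g = 1 then (Nat.card G : ℂ) else 0)
    - ((((U.index - 1) * (U.index - 1) + 1 : ℕ)) : ℂ) * (induced U (fun _ => 1) g - 1)

open Classical in
/-- **Symmetric and alternating groups.** Let `G` be a finite group and `U` a subgroup of index
`n ≥ 5` such that the image of `G` in the symmetric group on `G ⧸ U` contains the alternating group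
(and is the whole symmetric group if `n = 6`). Then (1) `theta U` is a virtual character of `G`; (2) its
multiplicities `⟨θ|_H, χ⟩` are nonnegative integers for all irreducible characters `χ` of
proper subgroups `H` and for all linear characters of `G`; (3) `⟨θ|_U, 1⟩ = ⟨θ, 1⟩ - 1`;
(4) no positive multiple of `Ind_U^G 1 - 1` is a sum of linear characters of `G` and characters induced from
irreducible characters of proper subgroups. -/
theorem result {G : Type} [Group G] [Fintype G] (U : Subgroup G) (h5 : 5 ≤ U.index)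
    (hA : alternatingGroup (G ⧸ U) ≤ (MulAction.toPermHom G (G ⧸ U)).range)
    (h6 : U.index ≠ 6 ∨ (MulAction.toPermHom G (G ⧸ U)).range = ⊤) :
    theta U ∈ AddSubgroup.closure
        {f : G → ℂ | ∃ (d : ℕ) (ρ : Representation ℂ G (Fin d → ℂ)), f = ρ.character} ∧
    (∀ (H : Subgroup G) (d : ℕ) (ρ : Representation ℂ H (Fin d → ℂ)), ρ.IsIrreducible →
      (H ≠ ⊤ ∨ d = 1) → ∃ N : ℕ, mult H (theta U) ρ.character = N) ∧
    mult U (theta U) (fun _ => 1) = mult ⊤ (theta U) (fun _ => 1) - 1 ∧
    ¬ FromArtin U := by
  have hcard : Fintype.card (G ⧸ U) = U.index := by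
    rw [← Nat.card_eq_fintype_card]; rfl
  set Φ : G →* Equiv.Perm (G ⧸ U) := MulAction.toPermHom G (G ⧸ U) with hΦ
  have hnt : Nontrivial (G ⧸ U) := Fintype.one_lt_card_iff_nontrivial.mp (by omega)
  have hU : ∀ g, g ∈ U ↔ Φ g ((1 : G) : G ⧸ U) = ((1 : G) : G ⧸ U) := by
    intro g
    change _ ↔ g • ((1 : G) : G ⧸ U) = _
    rw [← MulAction.mem_stabilizer_iff, MulAction.stabilizer_quotient]
  have htr : ∀ b : G ⧸ U, ∃ g : G, Φ g ((1 : G) : G ⧸ U) = b := by
    intro b
    obtain ⟨g, hg⟩ := MulAction.exists_smul_eq G ((1 : G) : G ⧸ U) b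
    exact ⟨g, hg⟩
  have hdec : ∀ i j : DecidableEq (G ⧸ U), @alternatingGroup (G ⧸ U) _ i ≤ Φ.range →
      @alternatingGroup (G ⧸ U) _ j ≤ Φ.range := by
    intro i j h
    rwa [Subsingleton.elim j i]
  have hA' : @alternatingGroup (G ⧸ U) _ (fun a b => Classical.propDecidable (a = b)) ≤ Φ.range :=
    hdec _ _ hA
  have h2 : ∀ a b c d : G ⧸ U, a ≠ b → c ≠ d → ∃ g : G, Φ g a = c ∧ Φ g b = d := by
    intro a b c d hab hcd
    obtain ⟨σ, hσ, h1, h2⟩ := Pool.Agent.K4H11.PD.alt_two (by omega) a b c d hab hcd
    obtain ⟨g, rfl⟩ := hA' hσ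
    exact ⟨g, h1, h2⟩
  have hpsi : ∀ g, Pool.Agent.K4H11.PD.induced U (fun _ => 1) g - 1 = Pool.Agent.K4H11.PD.psi Φ g := by
    intro g
    rw [Pool.Agent.K4H11.PD.induced_one Φ U _ hU htr]
    rfl
  have hθ : theta U = Pool.Agent.K4H11.PD.theta (Fintype.card (G ⧸ U) - 1)
      (Pool.Agent.K4H11.PD.psi Φ) := by
    funext g
    rw [hcard]
    unfold theta Pool.Agent.K4H11.PD.theta
    rw [← hpsi]
    rfl
  obtain ⟨d1, d2, d3⟩ := Pool.Agent.K4H11.PD.dual_gen Φ h2
    (Pool.Agent.K4H11.PD.sym_no Φ (by omega) hA' (by rw [hcard]; exact h6)) U hpsi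
  rw [← hθ] at d1 d2 d3
  refine ⟨d1, d2, d3, ?_⟩
  rintro ⟨m, n, H, d, ρ, hm, hi, h⟩
  have hcl := Pool.Agent.K4H11.PD.virt_class d1
  have e1 := Pool.Agent.K4H11.PD.mult_eq U (theta U) hcl (fun _ => 1)
  have e2 := Pool.Agent.K4H11.PD.mult_top (theta U) hcl
  have e3 : (m : ℂ) * (mult U (theta U) (fun _ => 1) - mult ⊤ (theta U) (fun _ => 1))
      = ∑ i, mult (H i) (theta U) (ρ i).character := by
    have e4 : ∀ i, mult (H i) (theta U) (ρ i).character
        = Pool.Agent.Helper884.IC.B (induced (H i) (ρ i).character) (theta U) :=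
      fun i => Pool.Agent.K4H11.PD.mult_eq (H i) (theta U) hcl _
    rw [Finset.sum_congr rfl (fun i _ => e4 i), ← Pool.Agent.Helper884.IC.B_sum_left]
    have e5 : (∑ i, induced (H i) (ρ i).character) = (m : ℂ) • (induced U (fun _ => 1) - fun _ => 1) := by
      funext g
      rw [Finset.sum_apply, ← h g]
      rfl
    rw [e5, Pool.Agent.Helper884.IC.B_smul_left, Pool.Agent.Helper884.IC.B_sub_left]
    congr 2
  have e6 := congrArg Complex.re e3
  rw [Complex.re_sum, ← Complex.ofReal_natCast, Complex.re_ofReal_mul, Complex.sub_re] at e6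
  have e7 : 0 ≤ ∑ i, (mult (H i) (theta U) (ρ i).character).re := by
    refine Finset.sum_nonneg fun i _ => ?_
    obtain ⟨N, hN⟩ := d2 (H i) (d i) (ρ i) (hi i).1 (hi i).2
    have hN' : mult (H i) (theta U) (ρ i).character = N := hN
    rw [hN', Complex.natCast_re]
    positivity
  rw [← e6] at e7
  have e8 : (0 : ℝ) < m := by exact_mod_cast hm
  have e9 := (mul_nonneg_iff_of_pos_left e8).mp e7
  have e10 := congrArg Complex.re d3
  change (mult U (theta U) (fun _ => 1)).re = (mult ⊤ (theta U) (fun _ => 1) - 1).re at e10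
  rw [Complex.sub_re, Complex.one_re] at e10
  linarith

end Pool.Agent.Results.MP_9fc8a5_nt.SymmetricAlternating
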