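import Mathlib
import Pool.Agent.K4H7.SN.Prod

/-!
# Quotients of Dedekind zeta functions at all points: symmetric groups and all their involutions

`Pool.Agent.H541R3.ART.ArtinData G s₀` is a family of functions with the formal properties of the
Artin L-functions of a Galois extension `E/K` with group `G` near a point `s₀ ≠ 1`: functions
`L χ` for the irreducible characters `χ` of `G`, meromorphic and not identically zero near `s₀`
(Brauer), and `Lin H ψ` for the linear characters `ψ` of the subgroups `H`, without pole at `s₀`
(Artin reciprocity and Hecke), such that `Lin H ψ` is the product of the `L χ ^ ⟨χ|_H, ψ⟩`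
(induction). In particular `Lin H 1` stands for the Dedekind zeta function of the fixed field of
`H`.

The proof shows more: for every `n` and every `t` with `t² = 1` in `S_n`, the permutation character
of `S_n` on `S_n / ⟨t⟩` is the sum of `1` and of characters induced from linear characters of
subgroups (`Pool.Agent.K4H7.SN.fin_pos`). The symmetric functions of these characters are found
from the free Lie algebra: with `Q` the symmetric algebra of its odd part, the even part is
generated freely by a sum of monomial representations of `2`-groups, found by a plethystic
recursion.
-/

set_option autoImplicit false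

open Pool.Agent.H541R3.ART

/-- Let `G` be the Galois group of `E/K`, let `N ≤ M` be subgroups of `G`, `N` normal in `M`, so
that `M / N` is the Galois group of `E^N / E^M`. Suppose that there is a surjection `π` with
solvable kernel from `M / N` onto a product of finitely many symmetric groups `S_{n_j}`, of any
degrees (for example: `M / N = S_n`, `n` arbitrary; or `M / N` the Weyl group of type `B_n` or a
wreath product of a solvable group with `S_n`). Let `V` be a subgroup with `N ≤ V ≤ M` whose image
in every `S_{n_j}` has order at most two (for example: `M / N = S_n` and `E^V` the fixed field of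
any involution, such as a transposition).

Then for all points `s₀`, all functions with the formal properties of the Artin L-functions of
`E/K` near `s₀`, and all linear characters `ρ` of `M`, the order at `s₀` of the L-function of `ρ`
over `E^M` is at most the order of the L-function of `ρ|_V` over `E^V`; for `ρ = 1`: the quotient
`ζ_{E^V} / ζ_{E^M}` has no pole at `s₀`. The zeros may have any order. -/
theorem Pool.Agent.Results.MP_9fc8a5_nt.SymmetricInvolutions.result
    (G : Type) [Group G] [Finite G] (M N : Subgroup G) [(N.subgroupOf M).Normal]
    (r : ℕ) (n : Fin r → ℕ)
    (π : (M ⧸ N.subgroupOf M) →* ∀ j, Equiv.Perm (Fin (n j))) (hπ : Function.Surjective π)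
    (hs : Group.IsSolvable π.ker) (V : Subgroup G) (hNV : N ≤ V) (hVM : V ≤ M)
    (hV : ∀ j, Nat.card ((V.subgroupOf M).map
      ((Pi.evalMonoidHom (fun j => Equiv.Perm (Fin (n j))) j).comp
        (π.comp (QuotientGroup.mk' (N.subgroupOf M))))) ≤ 2)
    (s₀ : ℂ) (A : ArtinData G s₀) (ρ : M →* ℂˣ) :
    meromorphicOrderAt (A.Lin M ρ) s₀
      ≤ meromorphicOrderAt (A.Lin V (ρ.comp (Subgroup.inclusion hVM))) s₀ :=
  Pool.Agent.K4H7.SN.main_prod M N r n π hπ hs V hNV hVM hV s₀ A ρ
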